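import Pool.Agent.Lib.GBC.J.Data
import Pool.Agent.Lib.HYP.H.Phi

/-!
Block D. The local conditions of the family for every genus: a monic polynomial of degree `2 g + 1`
without term of degree `2 g` which is irreducible modulo finitely many given maximal ideals
(Chinese remainder theorem for the coefficients).
-/

set_option autoImplicit false

open Polynomial IsDedekindDomain

namespace Pool.Agent.GBC

open Pool.Agent.BSDP Pool.Agent.BSDFF Pool.Agent.HYP

private theorem Data_ring {R : Type} [CommRing R] [Nontrivial R] (g : ℕ) (S : Set (Ideal R))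
    (hS : S.Finite) (hmax : ∀ P ∈ S, P.IsMaximal) (hfin : ∀ P ∈ S, Finite (R ⧸ P))
    (hc : ∀ P ∈ S, ((2 * g + 1 : ℕ) : R ⧸ P) ≠ 0) :
    ∃ φ : R[X], φ.Monic ∧ φ.natDegree = 2 * g + 1 ∧ φ.coeff (2 * g) = 0 ∧
      ∀ P ∈ S, Irreducible (φ.map (Ideal.Quotient.mk P)) := by
  classical
  have : Finite S := hS.to_subtype
  have hb : ∀ P : S, ∃ φ : (R ⧸ P.1)[X], φ.Monic ∧ φ.natDegree = 2 * g + 1 ∧
      φ.coeff (2 * g) = 0 ∧ Irreducible φ := by
    intro P
    have := hmax P.1 P.2
    have := hfin P.1 P.2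
    let _ := Ideal.Quotient.field P.1
    obtain ⟨φ, hφ⟩ := exists_leadForm (k := R ⧸ P.1) g (hc P.1 P.2)
    exact ⟨φ, hφ.monic, hφ.deg, hφ.tr, hφ.irr⟩
  choose φ hm hd ht hi using hb
  have hcop : Pairwise (fun P Q : S => IsCoprime P.1 Q.1) := by
    intro P Q hPQ
    have hP := hmax P.1 P.2
    have hQ := hmax Q.1 Q.2
    rw [Ideal.isCoprime_iff_sup_eq]
    exact hP.coprime_of_ne hQ (fun h => hPQ (Subtype.ext h))
  have hr : ∀ j : ℕ, ∃ r : R, ∀ P : S, Ideal.Quotient.mk P.1 r = (φ P).coeff j := by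
    intro j
    obtain ⟨r, hr⟩ := Ideal.pi_quotient_surjective (I := fun P : S => P.1) hcop
      (fun P => (φ P).coeff j)
    exact ⟨r, hr⟩
  choose r hr using hr
  set ψ : R[X] := X ^ (2 * g + 1) + ∑ j ∈ Finset.range (2 * g), C (r j) * X ^ j with hψ
  have hlow : (∑ j ∈ Finset.range (2 * g), C (r j) * X ^ j : R[X]).degree < (2 * g : ℕ) := by
    refine lt_of_le_of_lt (degree_sum_le _ _) ?_
    rw [Finset.sup_lt_iff (WithBot.bot_lt_coe _)]
    intro j hj
    refine lt_of_le_of_lt (degree_C_mul_X_pow_le j (r j)) ?_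
    exact_mod_cast Finset.mem_range.1 hj
  have hlow' : (∑ j ∈ Finset.range (2 * g), C (r j) * X ^ j : R[X]).degree < (2 * g + 1 : ℕ) :=
    hlow.trans (by exact_mod_cast Nat.lt_succ_self _)
  have hcoeff : ∀ i, i < 2 * g → ψ.coeff i = r i := by
    intro i hi'
    rw [hψ, coeff_add, coeff_X_pow, if_neg (by omega), zero_add, finsetSum_coeff]
    rw [Finset.sum_eq_single i]
    · rw [coeff_C_mul, coeff_X_pow, if_pos rfl, mul_one]
    · intro j _ hji
      rw [coeff_C_mul, coeff_X_pow, if_neg (Ne.symm hji), mul_zero]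
    · intro hcon
      exact absurd (Finset.mem_range.2 hi') hcon
  have hc2 : ψ.coeff (2 * g) = 0 := by
    rw [hψ, coeff_add, coeff_X_pow, if_neg (by omega), zero_add]
    exact coeff_eq_zero_of_degree_lt hlow
  have hψm : ψ.Monic := by
    rw [hψ]
    exact monic_X_pow_add hlow'
  have hψd : ψ.natDegree = 2 * g + 1 := by
    rw [hψ, natDegree_add_eq_left_of_degree_lt (by rw [degree_X_pow]; exact hlow'),
      natDegree_X_pow]
  refine ⟨ψ, hψm, hψd, hc2, fun P hP => ?_⟩
  have hmap : ψ.map (Ideal.Quotient.mk P) = φ ⟨P, hP⟩ := by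
    ext i
    rw [coeff_map]
    rcases lt_trichotomy i (2 * g) with h | h | h
    · rw [hcoeff i h]
      exact hr i ⟨P, hP⟩
    · rw [h, hc2, map_zero, ht ⟨P, hP⟩]
    · rcases Nat.lt_or_ge (2 * g + 1) i with h' | h'
      · rw [coeff_eq_zero_of_natDegree_lt (by omega), map_zero,
          coeff_eq_zero_of_natDegree_lt (by rw [hd]; exact h')]
      · have hi' : i = 2 * g + 1 := by omega
        have h1 : ψ.coeff i = 1 := by
          rw [hi', ← hψd]
          exact hψm.coeff_natDegree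
        have h2 : (φ ⟨P, hP⟩).coeff i = 1 := by
          rw [hi', ← hd ⟨P, hP⟩]
          exact (hm ⟨P, hP⟩).coeff_natDegree
        rw [h1, h2, map_one]
  rw [hmap]
  exact hi ⟨P, hP⟩

private theorem Data_char {k R : Type} [Field k] [CommRing R] [Algebra k R] (g : ℕ)
    (hp : 2 * g + 1 < ringChar k) (P : Ideal R) (hP : P.IsMaximal) :
    ((2 * g + 1 : ℕ) : R ⧸ P) ≠ 0 := by
  have : Nontrivial (R ⧸ P) := Ideal.Quotient.nontrivial_iff.2 hP.ne_top
  have h1 : ((2 * g + 1 : ℕ) : k) ≠ 0 := by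
    intro h
    have h2 := Nat.le_of_dvd (by omega) ((ringChar.spec k _).1 h)
    omega
  have h3 : ((2 * g + 1 : ℕ) : R ⧸ P) = algebraMap k (R ⧸ P) ((2 * g + 1 : ℕ) : k) :=
    (map_natCast _ _).symm
  rw [h3]
  exact (_root_.map_ne_zero _).2 h1

/-- The local conditions exist for every genus and every conductor. -/
theorem exists_dataG {k K : Type} [Field k] [Field K] [Algebra k K] (G : Geo k K) [Finite k] (g : ℕ)
    (_hg : 1 ≤ g) (hp : 2 * g + 1 < ringChar k) (N : Ideal G.A) (hN : N ≠ ⊥) (hr : N.IsRadical) :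
    ∃ D : Data G g, D.N = N := by
  have hA := G.hfqA
  have hB := G.hfqB
  obtain ⟨φ, h1, h2, h3, h4⟩ := Data_ring (R := G.B) g
    {P : Ideal G.B | P.IsMaximal ∧ Ideal.span {G.ti} ≤ P}
    (finite_maximal_of_le _ (by simpa using G.jti_ne)) (fun P hP => hP.1)
    (fun P hP => hB.finiteQuotient (by
      rintro rfl
      have := le_bot_iff.1 hP.2
      exact G.jti_ne (by simpa using this)))
    (fun P hP => Data_char (k := k) g hp P hP.1)
  obtain ⟨f₀, h1', h2', h3', h4'⟩ := Data_ring (R := G.A) g {P : Ideal G.A | P.IsMaximal ∧ N ≤ P}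
    (finite_maximal_of_le _ hN) (fun P hP => hP.1) (fun P hP => hA.finiteQuotient (by
      rintro rfl
      exact hN (le_bot_iff.1 hP.2)))
    (fun P hP => Data_char (k := k) g hp P hP.1)
  exact ⟨{
    φ := φ
    monic := h1
    deg := h2
    tr := h3
    irr := fun P hP => h4 P ⟨hP, by
      rw [Ideal.span_singleton_le_iff_mem]
      exact G.rad P hP⟩
    N := N
    N_ne := hN
    rad := hr
    f₀ := f₀
    monic₀ := h1'
    deg₀ := h2'
    tr₀ := h3'
    irr₀ := fun P hP hNP => h4' P ⟨hP, hNP⟩ }, rfl⟩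

end Pool.Agent.GBC
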