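import Pool.Agent.Lib.GBC.P.Pl
import Pool.Agent.Lib.GBC.P.Ord
import Pool.Agent.Lib.GBC.Q.Ideal
import Pool.Agent.Lib.GBC.G.DedP

/-!
Block D: the conductor `N` (the intersection of the primes of small degree) and the twisting elements.

`exists_twister`: let `I` be the product of the primes of `V`. For `y = ⌊deg I / d⌋ + C + 1` there is a
nonzero `e ∈ I ∩ t ^ y B` (`finrank_IL_ge`), `deg (e) ≤ d y ≤ deg I + d (C + 1)`. So `(e) = I J` with
`deg J ≤ C₂ = d (C + 1)`, the primes dividing `J` have degree at most `C₂`, so they contain `N`.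
-/

set_option autoImplicit false

open Polynomial

namespace Pool.Agent.GBC

open Pool.Agent.BSDP Pool.Agent.BSDFF Pool.Agent.HYP

variable {k K : Type} [Field k] [Field K] [Algebra k K]

private theorem Tw_finite (G : Geo k K) [Finite k] (E : ℕ) :
    {w : G.FP | w.1.degree ≤ E}.Finite := by
  have h : {w : G.FP | w.1.degree ≤ E} = ⋃ e ∈ Finset.range (E + 1), {w : G.FP | w.1.degree = e} := by
    ext w
    simp only [Set.mem_setOf_eq, Set.mem_iUnion, Finset.mem_range, exists_prop]
    constructor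
    · intro hw
      exact ⟨w.1.degree, by omega, rfl⟩
    · rintro ⟨e, he, rfl⟩
      omega
  rw [h]
  exact Set.Finite.biUnion (Finset.finite_toSet _) fun e _ => G.finite_deg e

theorem exists_conductor (G : Geo k K) [Finite k] (E : ℕ) :
    ∃ N : Ideal G.A, N ≠ ⊥ ∧ N.IsRadical ∧
      (∀ P : Ideal G.A, P.IsMaximal → G.degI P ≤ E → N ≤ P) ∧
      ∀ P : Ideal G.A, P.IsMaximal → N ≤ P → G.degI P ≤ E := by
  classical
  set S : Finset G.FP := (Tw_finite G E).toFinset with hS
  have hmem : ∀ w, w ∈ S ↔ w.1.degree ≤ E := by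
    intro w
    rw [hS, Set.Finite.mem_toFinset]
    rfl
  refine ⟨S.inf G.prime, ?_, ?_, ?_, ?_⟩
  · intro h0
    have h1 : ∏ w ∈ S, G.prime w ≤ S.inf G.prime := by
      refine Finset.le_inf fun w hw => ?_
      exact Ideal.le_of_dvd (Finset.dvd_prod_of_mem _ hw)
    rw [h0, le_bot_iff] at h1
    exact Finset.prod_ne_zero_iff.2 (fun w _ => G.prime_ne w) h1
  · have hrad : ∀ T : Finset G.FP, (T.inf G.prime).IsRadical := by
      intro T
      induction T using Finset.induction_on with
      | empty =>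
        rw [Finset.inf_empty]
        intro x _
        trivial
      | insert w T hw ih =>
        rw [Finset.inf_insert]
        exact Ideal.IsRadical.inf (G.prime_max w).isPrime.isRadical ih
    exact hrad S
  · intro P hP hd
    obtain ⟨w, rfl⟩ := G.prime_surj P hP
    rw [G.degI_prime] at hd
    exact Finset.inf_le ((hmem w).2 hd)
  · intro P hP hN
    obtain ⟨w, hw, hwP⟩ := (Ideal.IsPrime.inf_le' hP.isPrime).1 hN
    have h1 : G.prime w = P := (G.prime_max w).eq_of_le hP.ne_top hwP
    rw [← h1, G.degI_prime]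
    exact (hmem w).1 hw

theorem exists_twister (G : Geo k K) [Finite k] : ∃ C₂ : ℕ, ∀ N : Ideal G.A,
    (∀ P : Ideal G.A, P.IsMaximal → G.degI P ≤ C₂ → N ≤ P) →
    ∀ V : Finset G.FP, (∀ w ∈ V, ¬ N ≤ G.prime w) → ∃ e : G.A, Twister G N V e := by
  classical
  obtain ⟨C, hC⟩ := G.finrank_IL_ge
  refine ⟨G.d * (C + 1), fun N hN V hV => ?_⟩
  set I : Ideal G.A := ∏ w ∈ V, G.prime w with hI
  have hI0 : I ≠ ⊥ := by
    rw [hI]
    exact Finset.prod_ne_zero_iff.2 (fun w _ => G.prime_ne w)
  set y : ℤ := (G.degI I / G.d : ℕ) + C + 1 with hy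
  have hdpos := G.d_pos
  have hlt : G.degI I < G.d * (G.degI I / G.d + 1) := by
    have := Nat.lt_mul_div_succ (G.degI I) hdpos
    exact this
  have h1 := hC I hI0 y
  have h2 : (0 : ℤ) < Module.finrank k (G.IL I y) := by
    refine lt_of_lt_of_le ?_ h1
    have : ((G.degI I : ℕ) : ℤ) < (G.d * (G.degI I / G.d + 1) : ℕ) := by exact_mod_cast hlt
    push_cast at this
    rw [hy]
    push_cast
    linarith
  have h3 : G.IL I y ≠ ⊥ := by
    intro h
    rw [h, finrank_bot] at h2
    exact lt_irrefl _ h2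
  obtain ⟨e, he, he0⟩ := Submodule.exists_mem_ne_zero_of_ne_bot h3
  have heI : e ∈ I := he.1
  obtain ⟨J, hJ⟩ : I ∣ Ideal.span {e} := by
    rw [Ideal.dvd_span_singleton]
    exact heI
  have hspan0 : Ideal.span {e} ≠ ⊥ := by
    rw [Ne, Ideal.span_singleton_eq_bot]
    exact he0
  have hJ0 : J ≠ ⊥ := by
    rintro rfl
    rw [Ideal.mul_bot] at hJ
    exact hspan0 hJ
  have hdeg := G.degI_span_le he0 he.2
  rw [hJ, G.degI_mul hI0 hJ0] at hdeg
  have hJd : G.degI J ≤ G.d * (C + 1) := by
    have h4 : ((G.d * (G.degI I / G.d) : ℕ) : ℤ) ≤ G.degI I := by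
      exact_mod_cast Nat.mul_div_le (G.degI I) G.d
    push_cast at h4
    rw [hy] at hdeg
    push_cast at hdeg
    have : ((G.degI J : ℕ) : ℤ) ≤ (G.d * (C + 1) : ℕ) := by
      push_cast
      linarith
    exact_mod_cast this
  -- the primes dividing `J` contain `N`
  have hJN : ∀ w : G.FP, ¬ N ≤ G.prime w → ¬ J ≤ G.prime w := by
    intro w hw hJw
    exact hw (hN _ (G.prime_max w) ((G.degI_le hJ0 hJw).trans hJd))
  have heK : (e : K) ≠ 0 := fun h => he0 (Subtype.ext h)
  have hmemring : ∀ w : G.FP, (e : K) ∈ w.1.ring := fun w => w.2 _ e.2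
  have hIw : ∀ w : G.FP, I ≤ G.prime w → w ∈ V := by
    intro w hw
    rw [hI, (G.prime_max w).isPrime.prod_le] at hw
    obtain ⟨v, hv, hvw⟩ := hw
    have h4 : G.prime v = G.prime w := (G.prime_max v).eq_of_le (G.prime_max w).ne_top hvw
    rw [← G.prime_inj h4]
    exact hv
  refine ⟨e, he0, ?_, ?_⟩
  · intro w hw
    refine ⟨unif w.1, unif_irreducible w.1, ?_⟩
    have hP : ∀ a : G.A, a ∈ G.prime w ↔ w.1.ring.valuation (algebraMap G.A K a) < 1 :=
      fun a => G.mem_prime w a
    have hle : I ≤ G.prime w := by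
      rw [hI]
      exact Ideal.le_of_dvd (Finset.dvd_prod_of_mem _ hw)
    have hmem1 : e ∈ G.prime w := hle heI
    have hnot : e ∉ G.prime w ^ 2 := by
      intro h4
      have h5 : G.prime w ^ 2 ∣ Ideal.span {e} := Ideal.dvd_span_singleton.2 h4
      rw [hJ, hI, ← Finset.mul_prod_erase V G.prime hw, mul_assoc, pow_two] at h5
      have h6 := (mul_dvd_mul_iff_left (a := G.prime w) (G.prime_ne w)).1 h5
      have hpr : Prime (G.prime w) := Ideal.prime_of_isPrime (G.prime_ne w) (G.prime_max w).isPrime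
      rcases hpr.dvd_or_dvd h6 with h7 | h7
      · obtain ⟨v, hv, hvw⟩ := (hpr.dvd_finsetProd_iff _).1 h7
        have h8 : G.prime v ≤ G.prime w := Ideal.le_of_dvd hvw
        have h9 : G.prime v = G.prime w := (G.prime_max v).eq_of_le (G.prime_max w).ne_top h8
        exact (Finset.mem_erase.1 hv).1 (G.prime_inj h9)
      · exact hJN w (hV w hw) (Ideal.le_of_dvd h7)
    have hord1 : 1 ≤ ord w.1 (e : K) := (val_lt_one_iff w.1 heK).1 ((hP e).1 hmem1)
    have hord2 : ord w.1 (e : K) < 2 := by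
      by_contra hcon
      apply hnot
      rw [mem_pow_iff w.1.ring (fun a => w.2 _ a.2) hP (unif_irreducible w.1) 2 e]
      have h0 : (unif w.1 : K) ≠ 0 := fun h =>
        (unif_irreducible w.1).ne_zero (Subtype.ext h)
      have h10 : w.1.ring.valuation (unif w.1 : K) ^ 2 =
          w.1.ring.valuation ((unif w.1 : K) ^ 2) := (map_pow _ _ _).symm
      rw [h10]
      refine (val_le_iff w.1 heK (pow_ne_zero 2 h0)).2 ?_
      rw [ord_pow w.1 h0, ord_unif]
      push_cast
      omega
    have hord : ord w.1 (e : K) = 1 := by omega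
    rw [val_eq w.1 heK, hord, zpow_one]
  · intro w hw hNw
    rw [val_eq_one_iff w.1 heK]
    by_contra hne
    have h4 : 0 ≤ ord w.1 (e : K) := (mem_ring_iff w.1 heK).1 (hmemring w)
    have h5 : w.1.ring.valuation (e : K) < 1 := (val_lt_one_iff w.1 heK).2 (by omega)
    have h6 : e ∈ G.prime w := (G.mem_prime w e).2 h5
    have h7 : I * J ≤ G.prime w := by
      rw [← hJ, Ideal.span_singleton_le_iff_mem]
      exact h6
    rcases (G.prime_max w).isPrime.mul_le.1 h7 with h8 | h8
    · exact hw (hIw w h8)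
    · exact hJN w hNw h8

end Pool.Agent.GBC
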